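import Pool.Agent.Helper95_PSC.Stmts

set_option autoImplicit false

/-!
Linear algebra over the fraction field of a domain.
-/

namespace Pool.Agent.PSC.H96

open Pool.Agent.PSC

/-- Linear algebra over the fraction field. -/
theorem linAlg : LinAlgStmt := by
  classical
  intro A _ _ T P K _ _ _ ρ g h
  let F := FractionRing A
  let col : T → (P → F) := fun τ p => algebraMap A F (ρ p τ)
  let gc : K → (P → F) := fun κ p => algebraMap A F (g p κ)
  have hmem : ∀ κ, gc κ ∈ Submodule.span F (Set.range col) := by
    intro κ
    by_contra hn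
    obtain ⟨φ, hφ1, hφ2⟩ := Submodule.exists_le_ker_of_notMem hn
    -- the coordinates of φ
    obtain ⟨b, hb⟩ := IsLocalization.exist_integer_multiples_of_finite
      (nonZeroDivisors A) (fun p : P => φ (Pi.single p (1 : F)))
    choose y hy using hb
    have hbne : algebraMap A F (b : A) ≠ 0 := by
      intro h0
      have := (IsFractionRing.to_map_eq_zero_iff (K := F)).1 h0
      exact nonZeroDivisors.ne_zero b.2 this
    have key : ∀ w : P → A, algebraMap A F (∑ p, y p * w p) =
        algebraMap A F (b : A) * φ (fun p => algebraMap A F (w p)) := by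
      intro w
      rw [map_sum, LinearMap.pi_apply_eq_sum_univ φ (fun p => algebraMap A F (w p)),
        Finset.mul_sum]
      refine Finset.sum_congr rfl fun p _ => ?_
      rw [map_mul, hy p, Algebra.smul_def, smul_eq_mul]
      have : (fun j : P => if p = j then (1 : F) else 0) = Pi.single p (1 : F) := by
        funext j
        by_cases hj : j = p
        · subst hj; simp
        · have hj' : ¬ p = j := fun e => hj e.symm
          simp [hj, hj']
      rw [this]
      ring
    have h1 : ∀ τ, ∑ p, y p * ρ p τ = 0 := by
      intro τ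
      have hz : φ (fun p => algebraMap A F (ρ p τ)) = 0 :=
        hφ2 (Submodule.subset_span ⟨τ, rfl⟩)
      have := key (fun p => ρ p τ)
      rw [hz, mul_zero] at this
      exact (IsFractionRing.to_map_eq_zero_iff (K := F)).1 this
    have h2 := h y h1 κ
    have h3 := key (fun p => g p κ)
    rw [h2, map_zero] at h3
    rcases mul_eq_zero.1 h3.symm with h4 | h4
    · exact hbne h4
    · exact hφ1 h4
  have hco : ∀ κ, ∃ c : T → F, ∑ τ, c τ • col τ = gc κ := by
    intro κ
    exact (Submodule.mem_span_range_iff_exists_fun F).1 (hmem κ)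
  choose c hc using hco
  obtain ⟨b, hb⟩ := IsLocalization.exist_integer_multiples_of_finite
      (nonZeroDivisors A) (fun q : T × K => c q.2 q.1)
  choose L hL using hb
  refine ⟨(b : A), nonZeroDivisors.ne_zero b.2, fun τ κ => L (τ, κ), ?_⟩
  intro p κ
  apply IsFractionRing.injective A F
  have hcp := congrFun (hc κ) p
  simp only [Finset.sum_apply, Pi.smul_apply, smul_eq_mul, col, gc] at hcp
  rw [map_mul, map_sum, ← hcp, Finset.mul_sum]
  refine Finset.sum_congr rfl fun τ _ => ?_
  rw [map_mul, hL (τ, κ), Algebra.smul_def]
  ring

end Pool.Agent.PSC.H96
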